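import Mathlib
import Pool.Agent.H909R3.MP3dc4.Core

set_option autoImplicit false
open Topology Filter Set

namespace Pool.Agent.Results.MP_3dc43d_an.SeparableDenseLineable

open H909R3.MP3dc4

/-- Let `T` be a bounded operator on an arbitrary real or complex Banach space `X`, and let `S` be
any separable subset of the closure of the set `URec(T)` of uniformly recurrent vectors (vectors
whose return times to each of their neighbourhoods have bounded gaps). Then there is a linear
subspace `M` of `X`, mapped into itself by `T`, whose closure contains `S`, and all of whose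
elements are uniformly recurrent; even more, every finite tuple of elements of `M` is uniformly
recurrent for the product operator. For `X` separable and `T` uniformly recurrent take `S = X`:
the set `URec(T)` is dense lineable. -/
theorem result {𝕂 : Type*} [RCLike 𝕂] {X : Type*} [NormedAddCommGroup X] [NormedSpace 𝕂 X]
    [CompleteSpace X] (T : X →L[𝕂] X) (S : Set X) (hS : TopologicalSpace.IsSeparable S)
    (hST : S ⊆ closure {x : X | ∀ U ∈ 𝓝 x, ∃ N : ℕ, ∀ m : ℕ, ∃ n : ℕ,
      m ≤ n ∧ n ≤ m + N ∧ 1 ≤ n ∧ (T ^ n) x ∈ U}) :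
    ∃ M : Submodule 𝕂 X, S ⊆ closure (M : Set X) ∧ (∀ x ∈ M, T x ∈ M) ∧
      ∀ (k : ℕ) (x : Fin k → X), (∀ j, x j ∈ M) → ∀ U ∈ 𝓝 x, ∃ N : ℕ, ∀ m : ℕ, ∃ n : ℕ,
        m ≤ n ∧ n ≤ m + N ∧ 1 ≤ n ∧ (fun j => (T ^ n) (x j)) ∈ U := by
  classical
  set R : Set X := {x : X | ∀ U ∈ 𝓝 x, ∃ N : ℕ, ∀ m : ℕ, ∃ n : ℕ,
      m ≤ n ∧ n ≤ m + N ∧ 1 ≤ n ∧ (T ^ n) x ∈ U} with hR
  have hpow : ∀ (n : ℕ) (x : X), (T ^ n) x = (T : X → X)^[n] x := by
    intro n
    induction n with
    | zero => intro x; rfl
    | succ n ih =>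
      intro x
      rw [pow_succ, Function.iterate_succ_apply, ← ih]
      rfl
  have h0R : (0 : X) ∈ R := by
    intro U hU
    refine ⟨1, fun m => ⟨m + 1, by omega, by omega, by omega, ?_⟩⟩
    rw [map_zero]
    exact mem_of_mem_nhds hU
  obtain ⟨c, hcS, hcc, hcd⟩ := hS.exists_countable_dense_subset
  obtain ⟨s, hs⟩ := (hcc.insert (0 : X)).exists_eq_range (insert_nonempty _ _)
  have hsR : ∀ j, s j ∈ closure R := by
    intro j
    have : s j ∈ insert (0 : X) c := by rw [hs]; exact mem_range_self j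
    rcases this with h | h
    · rw [h]; exact subset_closure h0R
    · exact hST (hcS h)
  have hch : ∀ j k : ℕ, ∃ y ∈ R, dist (s j) y < 1 / ((k : ℝ) + 1) := by
    intro j k
    exact Metric.mem_closure_iff.1 (hsR j) _ (by positivity)
  choose y0 hy0R hy0 using hch
  let y : ℕ → X := fun i => y0 i.unpair.1 i.unpair.2
  have hyR : ∀ i, URecPt (T : X → X) (y i) := by
    intro i U hU
    obtain ⟨N, hN⟩ := hy0R i.unpair.1 i.unpair.2 U hU
    refine ⟨N, fun m => ?_⟩
    obtain ⟨n, h1, h2, h3, h4⟩ := hN m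
    refine ⟨n, h1, h2, h3, ?_⟩
    rw [← hpow]
    exact h4
  obtain ⟨x, hyx, _, hjoint⟩ := core (T : X → X) T.continuous y hyR
  let gen : ℕ × ℕ → X := fun p => (T ^ p.2) (x p.1)
  let M : Submodule 𝕂 X := Submodule.span 𝕂 (range gen)
  have hyM : ∀ i, y i ∈ closure (M : Set X) := by
    intro i
    refine closure_mono ?_ (hyx i)
    rintro _ ⟨n, rfl⟩
    apply Submodule.subset_span
    exact ⟨(i, n), hpow n (x i)⟩
  have hsM : ∀ j, s j ∈ closure (M : Set X) := by
    intro j
    rw [← closure_closure, Metric.mem_closure_iff]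
    intro ε hε
    obtain ⟨k, hk⟩ := exists_nat_one_div_lt hε
    refine ⟨y (Nat.pair j k), hyM _, ?_⟩
    have : y (Nat.pair j k) = y0 j k := by
      show y0 (Nat.pair j k).unpair.1 (Nat.pair j k).unpair.2 = y0 j k
      rw [Nat.unpair_pair]
    rw [this]
    exact (hy0 j k).trans hk
  refine ⟨M, ?_, ?_, ?_⟩
  · refine hcd.trans (closure_minimal ?_ isClosed_closure)
    intro z hz
    have : z ∈ insert (0 : X) c := Or.inr hz
    rw [hs] at this
    obtain ⟨j, rfl⟩ := this
    exact hsM j
  · have hle : M ≤ M.comap (T : X →ₗ[𝕂] X) := by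
      rw [Submodule.span_le]
      rintro _ ⟨p, rfl⟩
      show T (gen p) ∈ M
      apply Submodule.subset_span
      refine ⟨(p.1, p.2 + 1), ?_⟩
      show (T ^ (p.2 + 1)) (x p.1) = T ((T ^ p.2) (x p.1))
      rw [hpow, hpow, Function.iterate_succ_apply']
    intro z hz
    exact hle hz
  · intro k x' hx' U hU
    have h1 : ∀ j, ∃ a : (ℕ × ℕ) →₀ 𝕂, (a.sum fun p t => t • gen p) = x' j := by
      intro j
      exact (Finsupp.mem_span_range_iff_exists_finsupp).1 (hx' j)
    choose a ha using h1
    let g : (ℕ → X) → (Fin k → X) := fun u j => (a j).sum fun p t => t • (T ^ p.2) (u p.1)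
    have hg : Continuous g := by
      apply continuous_pi
      intro j
      apply continuous_finsetSum
      intro p _
      exact continuous_const.smul ((T ^ p.2).continuous.comp (continuous_apply p.1))
    have hgx : g x = x' := funext fun j => ha j
    have hU' : g ⁻¹' U ∈ 𝓝 x := by
      apply hg.continuousAt.preimage_mem_nhds
      rw [hgx]
      exact hU
    obtain ⟨N, hN⟩ := hjoint _ hU'
    refine ⟨N, fun m => ?_⟩
    obtain ⟨n, h2, h3, h4, h5⟩ := hN m
    refine ⟨n, h2, h3, h4, ?_⟩
    have : (fun j => (T ^ n) (x' j)) = g (fun i => (T : X → X)^[n] (x i)) := by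
      funext j
      rw [← hgx]
      show (T ^ n) ((a j).sum fun p t => t • (T ^ p.2) (x p.1)) =
        (a j).sum fun p t => t • (T ^ p.2) ((T : X → X)^[n] (x p.1))
      rw [Finsupp.sum, Finsupp.sum, map_sum]
      apply Finset.sum_congr rfl
      intro p _
      rw [map_smul, hpow, hpow, hpow, ← Function.iterate_add_apply, ← Function.iterate_add_apply,
        add_comm]
    rw [this]
    exact h5

end Pool.Agent.Results.MP_3dc43d_an.SeparableDenseLineable
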